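import Pool.Agent.Y42.AB.Stm
import Pool.Agent.H815.HF.Holland

set_option autoImplicit false

namespace Pool.Agent.Y457.AB

open Pool.Agent.Y42.AB

section Fam

variable {A : Type} [Group A] {I : Type} [LinearOrder I] {W : I → Type}
  [∀ i, LinearOrder (W i)] (r : ∀ i, A →* (W i ≃o W i))

/-- the action on the lexicographic sum -/
def act (x : A) (p : Σₗ i, W i) : Σₗ i, W i := toLex ⟨(ofLex p).1, r (ofLex p).1 x (ofLex p).2⟩

theorem act_mk (x : A) (i : I) (w : W i) :
    act r x (toLex ⟨i, w⟩) = toLex ⟨i, r i x w⟩ := rfl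

theorem mk_le_mk (i : I) (v w : W i) :
    (toLex (⟨i, v⟩ : Sigma W) : Σₗ i, W i) ≤ toLex ⟨i, w⟩ ↔ v ≤ w := by
  rw [Sigma.Lex.le_def]
  constructor
  · rintro (h | ⟨h, h2⟩)
    · exact absurd h (lt_irrefl _)
    · exact h2
  · intro h
    exact Or.inr ⟨rfl, h⟩

theorem act_mono (x : A) (p q : Σₗ i, W i) (h : p ≤ q) : act r x p ≤ act r x q := by
  rcases p with ⟨i, v⟩
  rcases q with ⟨j, w⟩
  rw [Sigma.Lex.le_def] at h ⊢
  rcases h with h | ⟨h, h2⟩
  · exact Or.inl h
  · change i = j at h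
    subst h
    exact Or.inr ⟨rfl, (r i x).monotone h2⟩

theorem act_mul (x y : A) (p : Σₗ i, W i) : act r (x * y) p = act r x (act r y p) := by
  rcases p with ⟨i, v⟩
  change act r (x * y) (toLex ⟨i, v⟩) = act r x (act r y (toLex ⟨i, v⟩))
  rw [act_mk, act_mk, act_mk, map_mul]
  rfl

theorem act_one (p : Σₗ i, W i) : act r 1 p = p := by
  rcases p with ⟨i, v⟩
  change act r 1 (toLex ⟨i, v⟩) = toLex ⟨i, v⟩
  rw [act_mk, map_one]
  rfl

/-- the action as a homomorphism -/
def big : A →* ((Σₗ i, W i) ≃o (Σₗ i, W i)) where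
  toFun x :=
    { toFun := act r x
      invFun := act r x⁻¹
      left_inv := fun p => by rw [← act_mul, inv_mul_cancel, act_one]
      right_inv := fun p => by rw [← act_mul, mul_inv_cancel, act_one]
      map_rel_iff' := by
        intro p q
        constructor
        · intro h
          have h2 := act_mono r x⁻¹ _ _ h
          simp only [Equiv.coe_fn_mk] at h2
          rwa [← act_mul, ← act_mul, inv_mul_cancel, act_one, act_one] at h2
        · intro h
          exact act_mono r x _ _ h }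
  map_one' := by
    apply RelIso.ext
    intro p
    exact act_one r p
  map_mul' x y := by
    apply RelIso.ext
    intro p
    exact act_mul r x y p

theorem big_apply (x : A) (p : Σₗ i, W i) : big r x p = act r x p := rfl

theorem mk_max (i : I) (v w : W i) :
    (toLex (⟨i, max v w⟩ : Sigma W) : Σₗ i, W i) = max (toLex ⟨i, v⟩) (toLex ⟨i, w⟩) := by
  rcases le_total v w with h | h
  · rw [max_eq_right h, max_eq_right ((mk_le_mk i v w).2 h)]
  · rw [max_eq_left h, max_eq_left ((mk_le_mk i w v).2 h)]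

theorem mk_min (i : I) (v w : W i) :
    (toLex (⟨i, min v w⟩ : Sigma W) : Σₗ i, W i) = min (toLex ⟨i, v⟩) (toLex ⟨i, w⟩) := by
  rcases le_total v w with h | h
  · rw [min_eq_left h, min_eq_left ((mk_le_mk i v w).2 h)]
  · rw [min_eq_right h, min_eq_right ((mk_le_mk i w v).2 h)]

end Fam

theorem t_HOL : S_HOL := by
  intro A _ _ _ _
  have H := fun i : {g : A // g ≠ 1} =>
    Pool.Agent.H815.HF.HollandM.holland A i.1 i.2
  choose W L r hmax hmin hne using H
  letI : LinearOrder {g : A // g ≠ 1} :=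
    IsWellOrder.linearOrder (WellOrderingRel : {g : A // g ≠ 1} → {g : A // g ≠ 1} → Prop)
  letI : ∀ i, LinearOrder (W i) := L
  refine ⟨Σₗ i, W i, inferInstance, big r, ?_, ?_, ?_⟩
  · intro x y hxy
    by_contra hn
    have h1 : x⁻¹ * y ≠ 1 := by
      intro h
      exact hn (inv_mul_eq_one.1 h)
    apply hne ⟨x⁻¹ * y, h1⟩
    apply RelIso.ext
    intro w
    have h2 : big r (x⁻¹ * y) = 1 := by
      rw [map_mul, map_inv, hxy, inv_mul_cancel]
    have h3 : big r (x⁻¹ * y) (toLex ⟨⟨x⁻¹ * y, h1⟩, w⟩) = toLex ⟨⟨x⁻¹ * y, h1⟩, w⟩ := by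
      rw [h2]; rfl
    rw [big_apply, act_mk] at h3
    have h4 := toLex.injective h3
    have h5 := eq_of_heq (Sigma.mk.inj h4).2
    exact h5
  · intro x y q
    rcases q with ⟨i, v⟩
    change act r (x ⊔ y) (toLex ⟨i, v⟩) = max (act r x (toLex ⟨i, v⟩)) (act r y (toLex ⟨i, v⟩))
    rw [act_mk, act_mk, act_mk, ← mk_max, ← hmax]
  · intro x y q
    rcases q with ⟨i, v⟩
    change act r (x ⊓ y) (toLex ⟨i, v⟩) = min (act r x (toLex ⟨i, v⟩)) (act r y (toLex ⟨i, v⟩))
    rw [act_mk, act_mk, act_mk, ← mk_min, ← hmin]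

end Pool.Agent.Y457.AB
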